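import Pool.Agent.TH625.GM.ThDeriv

/-! Functional equations for the twisted series. -/

set_option autoImplicit false
set_option linter.unusedSectionVars false

open Complex MeasureTheory
open UpperHalfPlane hiding I
open scoped Real MatrixGroups ModularForm

namespace Pool.Agent.TH625.GM

section

variable {m : ℕ} [NeZero m] (χ : DirichletCharacter ℂ m)

/-- weight function of the twisted theta series -/
noncomputable def FF (b : ℤ × ℤ) : ℂ := (h5 b : ℂ) * χ (nm b : ZMod m)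

theorem FF_zero : FF χ 0 = 0 := by simp [FF, h5_zero]

theorem chi_neg (n : ℤ) : χ ((-n : ℤ) : ZMod m) = χ (-1) * χ (n : ZMod m) := by
  rw [← map_mul]; congr 1; push_cast; ring

theorem FF_mulPhi (b : ℤ × ℤ) : FF χ (mulPhi b) = -χ (-1) * FF χ b := by
  rw [FF, h5_mulPhi, nm_mulPhi, chi_neg, FF]
  push_cast
  ring

theorem norm_FF_le (b : ℤ × ℤ) : ‖FF χ b‖ ≤ 1 := by
  rw [FF, norm_mul]
  have h1 := norm_h5_le b
  have h2 := χ.norm_le_one (nm b : ZMod m)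
  nlinarith [norm_nonneg (h5 b : ℂ), norm_nonneg (χ (nm b : ZMod m))]

theorem chi_neg_one : χ (-1) = 1 ∨ χ (-1) = -1 := by
  have h : χ (-1) ^ 2 = 1 := by
    rw [← map_pow]; simp
  exact sq_eq_one_iff_of_ne_zero_or h
where
  sq_eq_one_iff_of_ne_zero_or {x : ℂ} (h : x ^ 2 = 1) : x = 1 ∨ x = -1 := by
    exact sq_eq_one_iff_of_side_eq h
  sq_eq_one_iff_of_side_eq {x : ℂ} (h : x ^ 2 = 1) : x = 1 ∨ x = -1 := by
    have : (x - 1) * (x + 1) = 0 := by linear_combination h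
    rcases mul_eq_zero.1 this with h | h
    · left; linear_combination h
    · right; linear_combination h

/-- the weight `nm^δ F` -/
noncomputable def FD (δ : ℕ) (b : ℤ × ℤ) : ℂ := (nm b : ℂ) ^ δ * FF χ b

theorem FD_mulPhi (δ : ℕ) (hδ : (-1) ^ δ = χ (-1)) (b : ℤ × ℤ) :
    FD χ δ (mulPhi b) = -FD χ δ b := by
  rw [FD, nm_mulPhi, FF_mulPhi, ← hδ, FD]
  push_cast
  rw [neg_pow (nm b : ℂ) δ]
  have : ((-1 : ℂ) ^ δ) * (-1) ^ δ = 1 := by rw [← mul_pow]; simp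
  linear_combination (-(nm b : ℂ) ^ δ * FF χ b) * this

theorem FD_sum (δ : ℕ) (hδ : (-1) ^ δ = χ (-1)) (n : ℕ) (y : ℝ) :
    ∑ᶠ b ∈ Dn n, (FD χ δ b - FD χ δ (mulPhi b)) * rho b * (KB tt (2 * π * n * y) : ℂ) =
      4 * ((a n * χ (n : ZMod m)) * (n : ℂ) ^ δ * (KB tt (2 * π * n * y) : ℂ)) := by
  have h : ∀ b ∈ Dn n, (FD χ δ b - FD χ δ (mulPhi b)) * rho b * (KB tt (2 * π * n * y) : ℂ) =
      (2 * (n : ℂ) ^ δ * χ (n : ZMod m) * (KB tt (2 * π * n * y) : ℂ)) *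
        ((h5 b : ℂ) * rho b) := by
    intro b hb
    rw [FD_mulPhi χ δ hδ]
    have e : (nm b : ℂ) ^ δ * χ (nm b : ZMod m) = (n : ℂ) ^ δ * χ (n : ZMod m) := by
      rcases mem_Dn_nm hb with h | h
      · rw [h]; push_cast; rfl
      · rw [h, chi_neg, ← hδ]
        push_cast
        rw [neg_pow (n : ℂ) δ]
        have : ((-1 : ℂ) ^ δ) * (-1) ^ δ = 1 := by rw [← mul_pow]; simp
        linear_combination ((n : ℂ) ^ δ * χ (n : ZMod m)) * this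
    rw [FD, FF]
    linear_combination (2 * (h5 b : ℂ) * rho b * (KB tt (2 * π * n * y) : ℂ)) * e
  rw [finsum_mem_congr rfl h, ← mul_finsum_mem, a]
  ring

theorem abs_nm_le (b : ℤ × ℤ) : |(nm b : ℝ)| ≤ 4 * (1 + |(b.1 : ℝ)| + |(b.2 : ℝ)|) ^ 2 := by
  rw [← e1_mul_e2, abs_mul]
  nlinarith [abs_e1_le b, abs_e2_le b, abs_nonneg (e1 b), abs_nonneg (e2 b)]

theorem norm_FD_le (δ : ℕ) (b : ℤ × ℤ) :
    ‖FD χ δ b‖ ≤ 4 ^ δ * (1 + |(b.1 : ℝ)| + |(b.2 : ℝ)|) ^ (2 * δ) := by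
  rw [FD, norm_mul, norm_pow, pow_mul, ← mul_pow]
  have h1 : ‖(nm b : ℂ)‖ = |(nm b : ℝ)| := by
    rw [← Complex.ofReal_intCast, Complex.norm_real, Real.norm_eq_abs]
  rw [h1]
  have h2 := abs_nm_le b
  have h3 := norm_FF_le χ b
  calc |(nm b : ℝ)| ^ δ * ‖FF χ b‖ ≤ (4 * (1 + |(b.1 : ℝ)| + |(b.2 : ℝ)|) ^ 2) ^ δ * 1 := by
        gcongr
    _ = _ := by rw [mul_one]

/-- the theta integral is the twisted series -/
theorem P_eq (hU : Unfold) (δ : ℕ) (hδ : (-1) ^ δ = χ (-1)) (y : ℝ) (hy : 0 < y) :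
    (∫ s in (0 : ℝ)..(2 * Lg), Th (FD χ δ) s 0 y * cexp ((-(π * s / Lg) : ℝ) * I)) =
      4 * ∑' n : ℕ, (a n * χ (n : ZMod m)) * (n : ℂ) ^ δ * (KB tt (2 * π * n * y) : ℂ) := by
  have h := hU (FD χ δ) (fun b => by rw [FD_mulPhi χ δ hδ, FD_mulPhi χ δ hδ, neg_neg])
    (by rw [FD, FF_zero, mul_zero]) (2 * δ) (4 ^ δ) (norm_FD_le χ δ) y hy
  have h2 := h.tsum_eq
  rw [← h2, ← tsum_mul_left]
  congr 1
  ext n
  rw [FD_sum χ δ hδ]

end

theorem sqrt_div_aux (Q y : ℝ) (hQ : 0 < Q) (hy : 0 < y) :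
    Real.sqrt (y / (Q ^ 2 * y ^ 2)) * (Q * y) = Real.sqrt y := by
  have h1 : y / (Q ^ 2 * y ^ 2) = y / (Q * y) ^ 2 := by rw [mul_pow]
  rw [h1, Real.sqrt_div' _ (by positivity), Real.sqrt_sq (by positivity)]
  field_simp

theorem thTwist0 (hT : Twist) (m : ℕ) [NeZero m] (hm : m.Coprime 5)
    (χ : DirichletCharacter ℂ m) (hχ : χ.IsPrimitive) (h2 : χ ^ 2 = 1) (hδ : χ (-1) = 1)
    (s y : ℝ) (hy : 0 < y) :
    Th (FD χ 0) s 0 (1 / ((5 * m) ^ 2 * y)) = -((5 * m) * y) * Th (FD χ 0) s 0 y := by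
  have hm0 : (0 : ℝ) < m := by exact_mod_cast Nat.pos_of_ne_zero (NeZero.ne m)
  have h := hT m hm χ hχ h2 s 0 y hy
  rw [hδ] at h
  have e1 : (fun b => (h5 b : ℂ) * χ (nm b : ZMod m)) = FD χ 0 := by
    ext b; simp [FD, FF]
  rw [e1] at h
  have e2 : y / (25 * m ^ 2 * ((0 : ℝ) ^ 2 + y ^ 2)) = y / ((5 * m) ^ 2 * y ^ 2) := by
    congr 1; ring
  have e3 : y / ((5 * m) ^ 2 * y ^ 2) = 1 / ((5 * m) ^ 2 * y) := by
    field_simp
  have e4 : -0 / (25 * (m : ℝ) ^ 2 * ((0 : ℝ) ^ 2 + y ^ 2)) = 0 := by simp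
  rw [e2, e4] at h
  have h5 := sqrt_div_aux (5 * m) y (by positivity) hy
  set r := Real.sqrt (y / ((5 * (m : ℝ)) ^ 2 * y ^ 2)) with hr
  have hr0 : r ≠ 0 := by
    rw [hr]; apply (Real.sqrt_pos.2 (by positivity)).ne'
  rw [← h5, e3] at h
  have hr0' : (r : ℂ) ≠ 0 := by exact_mod_cast hr0
  apply mul_left_cancel₀ hr0'
  rw [h]
  push_cast
  ring

theorem thTwist1 (hs : ThSummable) (hT : Twist) (m : ℕ) [NeZero m] (hm : m.Coprime 5)
    (χ : DirichletCharacter ℂ m) (hχ : χ.IsPrimitive) (h2 : χ ^ 2 = 1) (hδ : χ (-1) = -1)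
    (s y : ℝ) (hy : 0 < y) :
    Th (FD χ 1) s 0 (1 / ((5 * m) ^ 2 * y)) = -((5 * m) * y) ^ 3 * Th (FD χ 1) s 0 y := by
  have hm0 : (0 : ℝ) < m := by exact_mod_cast Nat.pos_of_ne_zero (NeZero.ne m)
  have e1 : (fun b => (h5 b : ℂ) * χ (nm b : ZMod m)) = FF χ := by
    ext b; simp [FF]
  have hb : ∀ b, ‖FF χ b‖ ≤ 1 * (1 + |(b.1 : ℝ)| + |(b.2 : ℝ)|) ^ 0 := fun b => by
    simpa using norm_FF_le χ b
  -- the two sides as functions of `x`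
  set X : ℝ → ℝ := fun x => -x / (25 * m ^ 2 * (x ^ 2 + y ^ 2)) with hX
  set Y : ℝ → ℝ := fun x => y / (25 * m ^ 2 * (x ^ 2 + y ^ 2)) with hY
  have hD : HasDerivAt (fun x : ℝ => 25 * (m : ℝ) ^ 2 * (x ^ 2 + y ^ 2)) 0 0 := by
    have := ((hasDerivAt_pow 2 (0 : ℝ)).add_const (y ^ 2)).const_mul (25 * (m : ℝ) ^ 2)
    simpa using this
  have hD0 : 25 * (m : ℝ) ^ 2 * ((0 : ℝ) ^ 2 + y ^ 2) ≠ 0 := by positivity
  have hX' : HasDerivAt X (-(1 / (25 * m ^ 2 * y ^ 2))) 0 := by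
    have := ((hasDerivAt_id (0 : ℝ)).neg).div hD hD0
    convert! this using 1
    simp
    field_simp
  have hY' : HasDerivAt Y 0 0 := by
    have := (hasDerivAt_const (0 : ℝ) y).div hD hD0
    convert! this using 1
    simp
  have hY0 : Y 0 = 1 / ((5 * m) ^ 2 * y) := by
    rw [hY]; field_simp; ring
  have hX0 : X 0 = 0 := by rw [hX]; simp
  have hY0pos : 0 < Y 0 := by rw [hY0]; positivity
  have hr' : HasDerivAt (fun x => ((Real.sqrt (Y x) : ℝ) : ℂ)) 0 0 := by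
    have := (hY'.sqrt hY0pos.ne').ofReal_comp
    simpa using this
  have hL := hr'.mul (hasDerivAt_Th_path hs (FF χ) 0 1 hb s X Y _ 0 hX' hY' hY0pos)
  have hR := (hasDerivAt_Th_path hs (FF χ) 0 1 hb s (fun x => x) (fun _ => y) 1 0
    (hasDerivAt_id (0 : ℝ)) (hasDerivAt_const (0 : ℝ) y) hy).const_mul (Real.sqrt y : ℂ)
  have hEq : (fun x => ((Real.sqrt (Y x) : ℝ) : ℂ) * Th (FF χ) s (X x) (Y x)) =
      fun x => (Real.sqrt y : ℂ) * Th (FF χ) s x y := by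
    ext x
    have h := hT m hm χ hχ h2 s x y hy
    rw [hδ, e1] at h
    rw [hX, hY]
    rw [h]
    ring
  have hL' : HasDerivAt (fun x => ((Real.sqrt (Y x) : ℝ) : ℂ) * Th (FF χ) s (X x) (Y x)) _ 0 := hL
  rw [hEq] at hL'
  have h6 := hL'.unique hR
  have e7 : (fun b => (nm b : ℂ) * FF χ b) = FD χ 1 := by ext b; simp [FD]
  rw [e7, hX0, hY0] at h6
  have h5 := sqrt_div_aux (5 * m) y (by positivity) hy
  have e3 : y / ((5 * m) ^ 2 * y ^ 2) = 1 / ((5 * (m : ℝ)) ^ 2 * y) := by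
    field_simp
  rw [e3] at h5
  set r := Real.sqrt (1 / ((5 * (m : ℝ)) ^ 2 * y)) with hr
  have hr0 : r ≠ 0 := by
    rw [hr]; apply (Real.sqrt_pos.2 (by positivity)).ne'
  have hr0' : (r : ℂ) ≠ 0 := by exact_mod_cast hr0
  rw [← h5] at h6
  have hpi : (π : ℂ) ≠ 0 := by exact_mod_cast Real.pi_ne_zero
  have hy' : (y : ℂ) ≠ 0 := by exact_mod_cast hy.ne'
  have hm' : (m : ℂ) ≠ 0 := by exact_mod_cast NeZero.ne m
  have hc : (r : ℂ) * (2 * π * I) ≠ 0 :=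
    mul_ne_zero hr0' (mul_ne_zero (mul_ne_zero two_ne_zero hpi) Complex.I_ne_zero)
  apply mul_left_cancel₀ hc
  set T1 := Th (FD χ 1) s 0 (1 / ((5 * (m : ℝ)) ^ 2 * y)) with hT1
  set T2 := Th (FD χ 1) s 0 y with hT2
  have e8 : ((-(1 / (25 * (m : ℝ) ^ 2 * y ^ 2)) : ℝ) : ℂ) * (25 * (m : ℂ) ^ 2 * (y : ℂ) ^ 2) = -1 := by
    push_cast
    field_simp
  set w := ((-(1 / (25 * (m : ℝ) ^ 2 * y ^ 2)) : ℝ) : ℂ) with hw
  push_cast at h6 ⊢
  linear_combination (-(25 * (m : ℂ) ^ 2 * (y : ℂ) ^ 2)) * h6 + (r * (2 * π * I * T1)) * e8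

/-- the functional equation of the twisted Fourier-Bessel series -/
theorem hfe (hs : ThSummable) (hU : Unfold) (hT : Twist) (m : ℕ) [NeZero m] (hm : m.Coprime 5)
    (χ : DirichletCharacter ℂ m) (hχ : χ.IsPrimitive) (h2 : χ ^ 2 = 1) :
    ∃ δ : ℕ, (δ = 0 ∨ δ = 1) ∧ ∀ x : ℝ, 0 < x →
      ∑' n : ℕ, (a n * χ (n : ZMod m)) * (n : ℂ) ^ δ *
          (KB tt (2 * π * n * (1 / ((5 * m) ^ 2 * x))) : ℂ) =
        -(((5 * m) * x) ^ (2 * δ + 1) : ℝ) *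
          ∑' n : ℕ, (a n * χ (n : ZMod m)) * (n : ℂ) ^ δ * (KB tt (2 * π * n * x) : ℂ) := by
  have hm0 : (0 : ℝ) < m := by exact_mod_cast Nat.pos_of_ne_zero (NeZero.ne m)
  have key : ∀ δ : ℕ, (-1) ^ δ = χ (-1) → (∀ s y : ℝ, 0 < y →
      Th (FD χ δ) s 0 (1 / ((5 * m) ^ 2 * y)) =
        -(((5 * m) * y) ^ (2 * δ + 1) : ℝ) * Th (FD χ δ) s 0 y) → ∀ x : ℝ, 0 < x →
      ∑' n : ℕ, (a n * χ (n : ZMod m)) * (n : ℂ) ^ δ *
          (KB tt (2 * π * n * (1 / ((5 * m) ^ 2 * x))) : ℂ) =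
        -(((5 * m) * x) ^ (2 * δ + 1) : ℝ) *
          ∑' n : ℕ, (a n * χ (n : ZMod m)) * (n : ℂ) ^ δ * (KB tt (2 * π * n * x) : ℂ) := by
    intro δ hδ hTh x hx
    have h1 := P_eq χ hU δ hδ x hx
    have h2 := P_eq χ hU δ hδ (1 / ((5 * m) ^ 2 * x)) (by positivity)
    simp only [hTh _ x hx] at h2
    simp only [mul_assoc (-(((5 * (m : ℝ)) * x) ^ (2 * δ + 1) : ℝ) : ℂ)] at h2
    rw [intervalIntegral.integral_const_mul, h1] at h2
    have h4 : (4 : ℂ) ≠ 0 := by norm_num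
    apply mul_left_cancel₀ h4
    rw [← h2]
    ring
  rcases chi_neg_one χ with h | h
  · refine ⟨0, Or.inl rfl, key 0 (by rw [h]; simp) ?_⟩
    intro s y hy
    have := thTwist0 hT m hm χ hχ h2 h s y hy
    rw [this]
    push_cast
    ring
  · refine ⟨1, Or.inr rfl, key 1 (by rw [h]; simp) ?_⟩
    intro s y hy
    have := thTwist1 hs hT m hm χ hχ h2 h s y hy
    rw [this]
    push_cast
    ring

/-- entire continuation of the twisted Dirichlet series and vanishing at the centre -/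
theorem lzero (hs : ThSummable) (hU : Unfold) (hT : Twist) (h1 : Arith1) (hL : LSer)
    (m : ℕ) [NeZero m] (hm : m.Coprime 5)
    (χ : DirichletCharacter ℂ m) (hχ : χ.IsPrimitive) (h2 : χ ^ 2 = 1) :
    ∃ L : ℂ → ℂ, Differentiable ℂ L ∧ (∀ s : ℂ, 1 < s.re →
      LSeriesSummable (fun n => a n * χ (n : ZMod m)) s ∧
        LSeries (fun n => a n * χ (n : ZMod m)) s = L s) ∧ L (1 / 2) = 0 := by
  have hm0 : (0 : ℝ) < m := by exact_mod_cast Nat.pos_of_ne_zero (NeZero.ne m)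
  obtain ⟨δ, hδ, hf⟩ := hfe hs hU hT m hm χ hχ h2
  obtain ⟨C, hC⟩ := h1.sum
  refine hL (fun n => a n * χ (n : ZMod m)) (by simp [a_zero]) C ?_ tt δ hδ (5 * m)
    (by positivity) hf
  intro N
  refine le_trans (Finset.sum_le_sum fun n _ => ?_) (hC N)
  rw [norm_mul]
  have := χ.norm_le_one (n : ZMod m)
  nlinarith [norm_nonneg (a n)]

end Pool.Agent.TH625.GM
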