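import Pool.Agent.TH625.GM.Hecke

/-! The Maass form is not identically zero. -/

set_option autoImplicit false

open Complex MeasureTheory
open UpperHalfPlane hiding I
open scoped Real MatrixGroups ModularForm

namespace Pool.Agent.TH625.GM

theorem a_bound (h : Arith1) : ∃ C : ℝ, ∀ n : ℕ, ‖a n‖ ≤ C * n := by
  obtain ⟨C, hC⟩ := h.sum
  refine ⟨C, fun n => le_trans ?_ (hC n)⟩
  exact Finset.single_le_sum (f := fun k => ‖a k‖) (fun k _ => norm_nonneg _)
    (Finset.mem_range.2 (Nat.lt_succ_self n))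

theorem KB_ne (hB : BesselMellin) (t : ℝ) : ∃ x : ℝ, 0 < x ∧ KB t x ≠ 0 := by
  by_contra hcon
  push Not at hcon
  have h := (hB t 2 (by norm_num)).2
  have h0 : mellin (fun x => (KB t x : ℂ)) 2 = 0 := by
    unfold mellin
    rw [setIntegral_congr_fun measurableSet_Ioi (g := fun _ => (0 : ℂ))]
    · simp
    · intro x hx
      simp [hcon x hx]
  rw [h0] at h
  have h1 : Complex.Gamma ((2 + t * I) / 2) ≠ 0 := Complex.Gamma_ne_zero_of_re_pos (by simp)
  have h2 : Complex.Gamma ((2 - t * I) / 2) ≠ 0 := Complex.Gamma_ne_zero_of_re_pos (by simp)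
  have h3 : (2 : ℂ) ^ ((2 : ℂ) - 2) ≠ 0 := by simp
  exact (mul_ne_zero (mul_ne_zero h3 h1) h2) h.symm

theorem int_cos (k : ℤ) : ∫ x in (0 : ℝ)..1, Real.cos (2 * π * k * x) = if k = 0 then 1 else 0 := by
  split_ifs with h
  · subst h; simp
  · have hk : (2 * π * k : ℝ) ≠ 0 := by
      have : (k : ℝ) ≠ 0 := by exact_mod_cast h
      have := Real.pi_ne_zero
      positivity
    rw [intervalIntegral.integral_comp_mul_left (fun x => Real.cos x) hk, integral_cos]
    have : Real.sin (2 * π * k * 1) = 0 := by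
      have := Real.sin_int_mul_pi (2 * k)
      rw [← this]; congr 1; push_cast; ring
    rw [this]; simp

theorem int_cos_cos (n : ℕ) : ∫ x in (0 : ℝ)..1, Real.cos (2 * π * n * x) * Real.cos (2 * π * x) =
    (if n = 1 then 1 / 2 else 0) := by
  have e : ∀ x : ℝ, Real.cos (2 * π * n * x) * Real.cos (2 * π * x) =
      (1 / 2) * Real.cos (2 * π * ((n : ℤ) - 1 : ℤ) * x) +
        (1 / 2) * Real.cos (2 * π * ((n : ℤ) + 1 : ℤ) * x) := by
    intro x
    have h1 : 2 * π * (((n : ℤ) - 1 : ℤ) : ℝ) * x = 2 * π * n * x - 2 * π * x := by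
      push_cast; ring
    have h2 : 2 * π * (((n : ℤ) + 1 : ℤ) : ℝ) * x = 2 * π * n * x + 2 * π * x := by
      push_cast; ring
    rw [h1, h2, Real.cos_sub, Real.cos_add]
    ring
  simp only [e]
  have hi : ∀ k : ℤ, IntervalIntegrable (fun x : ℝ => (1 / 2) * Real.cos (2 * π * k * x))
      volume 0 1 := fun k => Continuous.intervalIntegrable (by fun_prop) _ _
  rw [intervalIntegral.integral_add (hi _) (hi _), intervalIntegral.integral_const_mul,
    intervalIntegral.integral_const_mul, int_cos, int_cos]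
  have h3 : ((n : ℤ) + 1 = 0) ↔ False := ⟨fun h => by omega, fun h => h.elim⟩
  have h4 : ((n : ℤ) - 1 = 0) ↔ n = 1 := by omega
  simp only [h3, h4, if_false]
  split_ifs <;> simp

theorem fM_ne (hU : Unfold) (hA : Arith1) (hB : BesselMellin) (hS : Smooth) :
    ∃ z : ℍ, fM z ≠ 0 := by
  by_contra hcon
  push Not at hcon
  obtain ⟨C, hC⟩ := a_bound hA
  obtain ⟨x0, hx0, hK⟩ := KB_ne hB tt
  set y := x0 / (2 * π) with hy
  have hpi := Real.pi_pos
  have hy0 : 0 < y := by positivity
  have hxy : 2 * π * (1 : ℕ) * y = x0 := by rw [hy]; push_cast; field_simp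
  -- the Fourier series
  have hs : ∀ x : ℝ, HasSum (fun n : ℕ => trm n x y) 0 := fun x => by
    have := fM_hasSum' hU x y hy0
    rwa [hcon] at this
  have hsm : Summable (fun n : ℕ => ‖trm n 0 y‖) := (hS.summable a a_zero C hC tt 0 y hy0).norm
  have hbd : ∀ (n : ℕ) (x : ℝ), ‖trm n x y * (Real.cos (2 * π * x) : ℂ)‖ ≤ ‖trm n 0 y‖ := by
    intro n x
    unfold trm
    rw [norm_mul, norm_mul, norm_mul, Complex.norm_real, Complex.norm_real, Complex.norm_real,
      Real.norm_eq_abs, Real.norm_eq_abs, Real.norm_eq_abs, abs_mul (2 * Real.sqrt y * _),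
      abs_mul (2 * Real.sqrt y * _)]
    have h1 := Real.abs_cos_le_one (2 * π * n * x)
    have h2 := Real.abs_cos_le_one (2 * π * x)
    have h3 : |Real.cos (2 * π * n * 0)| = 1 := by simp
    rw [h3, mul_one]
    set A := |2 * Real.sqrt y * KB tt (2 * π * n * y)|
    have hA0 : 0 ≤ A := abs_nonneg _
    have hB0 : 0 ≤ ‖a n‖ := norm_nonneg _
    calc A * |Real.cos (2 * π * n * x)| * ‖a n‖ * |Real.cos (2 * π * x)|
        ≤ A * 1 * ‖a n‖ * 1 := by gcongr
      _ = _ := by ring
  have hint := intervalIntegral.hasSum_integral_of_dominated_convergence (μ := volume)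
    (a := (0 : ℝ)) (b := 1) (F := fun (n : ℕ) (x : ℝ) => trm n x y * (Real.cos (2 * π * x) : ℂ))
    (f := fun _ => (0 : ℂ)) (fun n _ => ‖trm n 0 y‖)
    (fun n => by
      apply Continuous.aestronglyMeasurable
      unfold trm
      fun_prop)
    (fun n => Filter.Eventually.of_forall fun x _ => hbd n x)
    (Filter.Eventually.of_forall fun x _ => hsm)
    (by simp)
    (Filter.Eventually.of_forall fun x _ => by
      simpa using (hs x).mul_right (Real.cos (2 * π * x) : ℂ))
  have hterm : ∀ n : ℕ, ∫ x in (0 : ℝ)..1, trm n x y * (Real.cos (2 * π * x) : ℂ) =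
      if n = 1 then ((Real.sqrt y * KB tt x0 : ℝ) : ℂ) else 0 := by
    intro n
    have e : ∀ x : ℝ, trm n x y * (Real.cos (2 * π * x) : ℂ) =
        ((2 * Real.sqrt y * KB tt (2 * π * n * y) : ℝ) * a n) *
          ((Real.cos (2 * π * n * x) * Real.cos (2 * π * x) : ℝ) : ℂ) := by
      intro x; unfold trm; push_cast; ring
    simp only [e]
    rw [intervalIntegral.integral_const_mul, intervalIntegral.integral_ofReal, int_cos_cos]
    split_ifs with h
    · subst h
      rw [hxy, hA.one]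
      push_cast
      ring
    · simp
  simp only [hterm] at hint
  have h1 : HasSum (fun n : ℕ => if n = 1 then ((Real.sqrt y * KB tt x0 : ℝ) : ℂ) else 0)
      ((Real.sqrt y * KB tt x0 : ℝ) : ℂ) := hasSum_ite_eq 1 _
  have h2 := hint.unique h1
  simp only [intervalIntegral.integral_zero] at h2
  have h3 : Real.sqrt y * KB tt x0 = 0 := by exact_mod_cast h2.symm
  rcases mul_eq_zero.1 h3 with h | h
  · exact (Real.sqrt_pos.2 hy0).ne' h
  · exact hK h

end Pool.Agent.TH625.GM
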