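import Pool.Agent.TH822.J690
import Pool.Agent.TH67.J691
import Pool.Agent.TH772.J692
import Pool.Agent.TH796.J693
import Pool.Agent.TH858.J694
import Pool.Agent.TH858.J695
import Pool.Agent.TH432.J696
import Pool.Agent.TH772.J697
import Pool.Agent.TH153.J698
import Pool.Agent.TH889.J699
import Pool.Agent.TH761.J700
import Pool.Agent.TH148.J701
import Pool.Agent.TH884.J702
import Pool.Agent.TH443.J703
import Pool.Agent.TH625.GM.Feq
import Pool.Agent.TH625.GM.Nonzero

/-! All parts, without hypotheses. -/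

set_option autoImplicit false

open Complex MeasureTheory
open UpperHalfPlane hiding I
open scoped Real MatrixGroups ModularForm

namespace Pool.Agent.TH625.GM

theorem pArith1 : Arith1 := Pool.Agent.TH822.J690.arith1

theorem pArith2 : Arith2 := Pool.Agent.TH67.J691.arith2 pArith1

theorem pPoisson2 : Poisson2 := Pool.Agent.TH772.J692.poisson2

theorem pThSummable : ThSummable := Pool.Agent.TH796.J693.thSummable

theorem pLawT : LawT := Pool.Agent.TH796.J693.lawT

theorem pLawOne : LawOne := Pool.Agent.TH796.J693.lawOne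

theorem pLawS : LawS := Pool.Agent.TH796.J693.lawS pPoisson2

theorem pLawSL2 : LawSL2 := Pool.Agent.TH858.J694.lawSL2 pLawT pLawS

theorem pLawTw5 : LawTw5 := Pool.Agent.TH858.J695.lawTw5 pThSummable

theorem pLawAut : LawAut := Pool.Agent.TH858.J695.lawAut pLawOne pLawSL2 pLawTw5

theorem pCusps : Cusps := Pool.Agent.TH432.J696.cusps pThSummable pLawOne pLawSL2 pLawTw5 pLawAut

theorem pTwist : Twist := Pool.Agent.TH772.J697.twist pThSummable pLawOne pLawSL2

theorem pUnfold : Unfold := Pool.Agent.TH153.J698.unfold pThSummable pArith1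

theorem pBessel : Bessel := Pool.Agent.TH889.J699.bessel

theorem pBesselMellin : BesselMellin := Pool.Agent.TH761.J700.besselMellin

theorem pSmooth : Smooth := Pool.Agent.TH148.J701.smooth pBessel

theorem pLSer : LSer := Pool.Agent.TH884.J702.lSer pBessel pBesselMellin

theorem pSplit5 : Split5 := Pool.Agent.TH443.J703.split5

/-- invariance of the Maass form under `Γ₀(25)` -/
theorem fM_inv (γ : SL(2, ℤ)) (hγ : γ ∈ CongruenceSubgroup.Gamma0 25) (z : ℍ) :
    fM (γ • z) = fM z := by
  unfold fM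
  congr 2
  ext s
  rw [pLawAut s γ hγ z]

theorem fM_ser (z : ℍ) : fM z = Ser a tt z.re z.im := fM_eq pUnfold z

theorem fM_ofComplex (x y : ℝ) (hy : 0 < y) :
    fM (ofComplex ((x : ℂ) + y * I)) = Ser a tt x y := by
  have hz : 0 < ((x : ℂ) + y * I).im := by simpa using hy
  rw [fM_ser, ofComplex_apply_of_im_pos hz]
  simp [UpperHalfPlane.im, UpperHalfPlane.re]

theorem fM_smooth : ContDiffOn ℝ (⊤ : ℕ∞) (fun z : ℂ => fM (ofComplex z)) {z : ℂ | 0 < z.im} := by
  obtain ⟨C, hC⟩ := a_bound pArith1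
  have h := pSmooth.contDiff a a_zero C hC tt
  have h2 : ContDiff ℝ (⊤ : ℕ∞) (fun z : ℂ => (z.re, z.im)) :=
    Complex.equivRealProdCLM.contDiff
  have h3 := h.comp (h2.contDiffOn (s := {z : ℂ | 0 < z.im})) (fun z hz => hz)
  refine h3.congr ?_
  intro z hz
  have hz' : 0 < z.im := hz
  have := fM_ofComplex z.re z.im hz'
  rw [Complex.re_add_im] at this
  exact this

theorem fM_laplace (x y : ℝ) (hy : 0 < y) :
    -(y ^ 2 * (iteratedDeriv 2 (fun u : ℝ => fM (ofComplex ((u : ℂ) + y * I))) x +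
      iteratedDeriv 2 (fun v : ℝ => fM (ofComplex ((x : ℂ) + v * I))) y)) =
      (1 / 4 + tt ^ 2 : ℝ) * fM (ofComplex ((x : ℂ) + y * I)) := by
  obtain ⟨C, hC⟩ := a_bound pArith1
  have h := pSmooth.eigen a a_zero C hC tt x y hy
  have e1 : (fun u : ℝ => fM (ofComplex ((u : ℂ) + y * I))) = fun u => Ser a tt u y := by
    ext u; exact fM_ofComplex u y hy
  have e2 : (fun v : ℝ => fM (ofComplex ((x : ℂ) + v * I))) =ᶠ[nhds y] fun v => Ser a tt x v := by
    filter_upwards [lt_mem_nhds hy] with v hv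
    exact fM_ofComplex x v hv
  rw [e1, e2.iteratedDeriv_eq, fM_ofComplex x y hy, h]
  push_cast
  ring

end Pool.Agent.TH625.GM
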