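import Pool.Agent.TH625.GM.Props

/-! Basic facts used in the assembly. -/

set_option autoImplicit false

open Complex MeasureTheory
open UpperHalfPlane hiding I
open scoped Real MatrixGroups ModularForm

namespace Pool.Agent.TH625.GM

theorem nm_mulPhi (b : ℤ × ℤ) : nm (mulPhi b) = -nm b := by
  simp only [nm, mulPhi]; ring

theorem rs_mulPhi (b : ℤ × ℤ) : rs (mulPhi b) = 3 * rs b := by
  simp only [rs, mulPhi]
  push_cast
  have h5 : (5 : ZMod 5) = 0 := by decide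
  linear_combination (-(b.2 : ZMod 5)) * h5

theorem chi5_three (x : ZMod 5) : chi5 (3 * x) = -chi5 x := by
  revert x; decide

theorem chi5_neg (x : ZMod 5) : chi5 (-x) = chi5 x := by
  revert x; decide

theorem chi5_abs (x : ZMod 5) : |chi5 x| ≤ 1 := by
  revert x; decide

theorem chi5_cases (x : ZMod 5) : chi5 x = 0 ∨ chi5 x = 1 ∨ chi5 x = -1 := by
  revert x; decide

theorem h5_mulPhi (b : ℤ × ℤ) : h5 (mulPhi b) = -h5 b := by
  rw [h5, rs_mulPhi, chi5_three, h5]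

theorem h5_zero : h5 0 = 0 := by
  simp [h5, rs, chi5]

theorem norm_h5_le (b : ℤ × ℤ) : ‖(h5 b : ℂ)‖ ≤ 1 := by
  have h := chi5_abs (rs b)
  rw [h5]
  have : ‖((chi5 (rs b) : ℤ) : ℂ)‖ = |(chi5 (rs b) : ℝ)| := by
    rw [← Complex.ofReal_intCast, Complex.norm_real, Real.norm_eq_abs]
  rw [this]
  exact_mod_cast h

theorem nm_eq_zero (b : ℤ × ℤ) (h : nm b = 0) : b = 0 := by
  have h2 : (2 * b.1 + b.2) ^ 2 = 5 * b.2 ^ 2 := by
    simp only [nm] at h
    linear_combination 4 * h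
  have hb2 : b.2 = 0 := by
    by_contra hb
    have hirr : Irrational (Real.sqrt 5) := by
      have := Nat.Prime.irrational_sqrt (show Nat.Prime 5 by norm_num)
      exact_mod_cast this
    apply hirr
    have hb' : (b.2 : ℝ) ≠ 0 := by exact_mod_cast hb
    have h3 : ((2 * b.1 + b.2 : ℤ) : ℝ) ^ 2 = 5 * (b.2 : ℝ) ^ 2 := by exact_mod_cast h2
    have h4 : (|((2 * b.1 + b.2 : ℤ) : ℝ)| / |(b.2 : ℝ)|) ^ 2 = 5 := by
      rw [div_pow, sq_abs, sq_abs, h3]
      field_simp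
    have h5' : Real.sqrt 5 = |((2 * b.1 + b.2 : ℤ) : ℝ)| / |(b.2 : ℝ)| := by
      rw [← h4, Real.sqrt_sq (by positivity)]
    rw [h5']
    refine ⟨|(2 * b.1 + b.2 : ℤ)| / |b.2|, ?_⟩
    push_cast
    rfl
  have hb1 : b.1 = 0 := by
    rw [hb2] at h2
    have : (2 * b.1) ^ 2 = 0 := by linarith
    have := pow_eq_zero_iff (two_ne_zero) |>.1 this
    omega
  exact Prod.ext hb1 hb2

theorem Dn_zero : Dn 0 = ∅ := by
  ext b
  simp only [Dn, Dm, Set.mem_setOf_eq, Set.mem_empty_iff_false, iff_false, not_and]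
  intro h h0
  exact h.1 (nm_eq_zero b (by simpa using h0))

theorem a_zero : a 0 = 0 := by
  rw [a, Dn_zero]; simp

theorem mem_Dn_nm {n : ℕ} {b : ℤ × ℤ} (hb : b ∈ Dn n) : nm b = n ∨ nm b = -n := by
  have := hb.2
  omega

end Pool.Agent.TH625.GM
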