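import Mathlib

/-!
# Definitions for the dihedral Maass form attached to `ℚ(√5)` (problem MP_17f4cb_nt)

`b = (m, n)` stands for `m + n φ ∈ ℤ[φ]`, `φ` the golden ratio.
-/

set_option autoImplicit false

open Complex MeasureTheory
open UpperHalfPlane hiding I
open scoped Real MatrixGroups

namespace Pool.Agent.TH625.GM

noncomputable section

/-- first real embedding of `m + n φ` -/
def e1 (b : ℤ × ℤ) : ℝ := b.1 + b.2 * Real.goldenRatio

/-- second real embedding of `m + n φ` -/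
def e2 (b : ℤ × ℤ) : ℝ := b.1 + b.2 * Real.goldenConj

/-- norm form `e1 b * e2 b` -/
def nm (b : ℤ × ℤ) : ℤ := b.1 ^ 2 + b.1 * b.2 - b.2 ^ 2

/-- residue of `m + n φ` modulo `√5` -/
def rs (b : ℤ × ℤ) : ZMod 5 := (b.1 : ZMod 5) + 3 * (b.2 : ZMod 5)

/-- the quadratic residue symbol modulo `5` -/
def chi5 : ZMod 5 → ℤ := ![0, 1, -1, -1, 1]

/-- a quartic character modulo `5` -/
def om : ZMod 5 → ℂ := ![0, 1, I, -I, -1]

/-- quadratic residue symbol of `m + n φ` modulo `√5` -/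
def h5 (b : ℤ × ℤ) : ℤ := chi5 (rs b)

/-- multiplication by `φ` -/
def mulPhi (b : ℤ × ℤ) : ℤ × ℤ := (b.2, b.1 + b.2)

/-- the majorant `e1² exp(2s) + e2² exp(-2s)` -/
def maj (s : ℝ) (b : ℤ × ℤ) : ℝ := e1 b ^ 2 * Real.exp (2 * s) + e2 b ^ 2 * Real.exp (-(2 * s))

/-- `log φ` -/
def Lg : ℝ := Real.log Real.goldenRatio

/-- the spectral parameter `t = π / (2 log φ)` -/
def tt : ℝ := π / (2 * Lg)

/-- theta series (without the factor `√y`) with weight function `F` -/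
def Th (F : ℤ × ℤ → ℂ) (s x y : ℝ) : ℂ :=
  ∑' b : ℤ × ℤ, F b * cexp (((-(π * y * maj s b) : ℝ) : ℂ) + ((2 * π * x * nm b : ℝ) : ℂ) * I)

/-- theta series `√y ∑ F(b) exp(-π y maj_s(b)) e(x nm b)` on the upper half plane -/
def E (F : ℤ × ℤ → ℂ) (s : ℝ) (z : ℍ) : ℂ := (Real.sqrt z.im : ℂ) * Th F s z.re z.im

/-- the theta series of the coset `rs b = k` -/
def thk (k : ZMod 5) (s : ℝ) (z : ℍ) : ℂ :=
  (Real.sqrt z.im : ℂ) * Th (fun b => if rs b = k then 1 else 0) s (-(z.re / 5)) (z.im / 5)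

/-- the Bessel function `K_{it}(x) = ∫₀^∞ exp(-x cosh w) cos(t w) dw` -/
def KB (t x : ℝ) : ℝ := ∫ w in Set.Ioi (0 : ℝ), Real.exp (-(x * Real.cosh w)) * Real.cos (t * w)

/-- fundamental domain for multiplication by powers of `φ` -/
def Dm : Set (ℤ × ℤ) :=
  {b | b ≠ 0 ∧ |e2 b| ≤ |e1 b| ∧ |e1 b| < Real.goldenRatio ^ 2 * |e2 b|}

/-- the unitary character `|e1 b / e2 b|^{it}` -/
def rho (b : ℤ × ℤ) : ℂ := cexp ((tt * Real.log (|e1 b| / |e2 b|) : ℝ) * I)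

/-- elements of the fundamental domain with norm `± n` -/
def Dn (n : ℕ) : Set (ℤ × ℤ) := {b | b ∈ Dm ∧ (nm b).natAbs = n}

/-- the coefficients (Hecke eigenvalues) -/
def a (n : ℕ) : ℂ := (1 / 2) * ∑ᶠ b ∈ Dn n, (h5 b : ℂ) * rho b

/-- the Maass form -/
def fM (z : ℍ) : ℂ :=
  (1 / 2) * ∫ s in (0 : ℝ)..(2 * Lg), E (fun b => (h5 b : ℂ)) s z * cexp ((-(π * s / Lg) : ℝ) * I)

end

end Pool.Agent.TH625.GM
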