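import Mathlib

/-!
Definitions for the statement of `Pool.Agent.Results.MP_17f4cb_nt.CentralZerosAllTwists.result`:
Hecke-Maass forms on `Γ₀(N)`, central values of their quadratic twists, counting functions.
-/

set_option autoImplicit false

open Complex MeasureTheory
open UpperHalfPlane hiding I
open scoped Real MatrixGroups

namespace Pool.Agent.TH625.GM

noncomputable section


/-- The Bessel function `K_{it}(x) = ∫₀^∞ exp(-x cosh w) cos(t w) dw`. -/
def besselK (t x : ℝ) : ℝ :=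
  ∫ w in Set.Ioi (0 : ℝ), Real.exp (-(x * Real.cosh w)) * Real.cos (t * w)

/-- `f` is a nonzero Maass cusp form of weight `0` and trivial character on `Γ₀(N)` with Laplace
eigenvalue `lam`: smooth, an eigenfunction of `-y² (∂²/∂x² + ∂²/∂y²)`, invariant under `Γ₀(N)`, with
vanishing constant term and rapid decay at every cusp. -/
structure IsMaassCuspForm (N : ℕ) (lam : ℝ) (f : ℍ → ℂ) : Prop where
  ne_zero : ∃ z : ℍ, f z ≠ 0
  smooth : ContDiffOn ℝ (⊤ : ℕ∞) (fun z : ℂ => f (ofComplex z)) {z : ℂ | 0 < z.im}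
  laplace : ∀ x y : ℝ, 0 < y →
    -(y ^ 2 * (iteratedDeriv 2 (fun u : ℝ => f (ofComplex ((u : ℂ) + y * I))) x +
      iteratedDeriv 2 (fun v : ℝ => f (ofComplex ((x : ℂ) + v * I))) y)) =
      lam * f (ofComplex ((x : ℂ) + y * I))
  invariant : ∀ γ : SL(2, ℤ), γ ∈ CongruenceSubgroup.Gamma0 N → ∀ z : ℍ, f (γ • z) = f z
  cuspidal : ∀ (σ : SL(2, ℤ)) (z : ℍ), ∫ x in (0 : ℝ)..N, f (σ • (x +ᵥ z)) = 0
  decay : ∀ σ : SL(2, ℤ), ∃ C c : ℝ, 0 < c ∧ ∀ z : ℍ, 1 ≤ z.im →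
    ‖f (σ • z)‖ ≤ C * Real.exp (-(c * z.im))

/-- `f` is a Maass cusp form on `Γ₀(N)` with Laplace eigenvalue `1/4 + t²` and Fourier coefficients
`a n`, normalised by `a 1 = 1`, which is an eigenfunction of the Hecke operators `T_p`, `p ∤ N`, with
eigenvalues `a p`. -/
structure IsHeckeMaassForm (N : ℕ) (t : ℝ) (f : ℍ → ℂ) (a : ℕ → ℂ) : Prop extends
    IsMaassCuspForm N (1 / 4 + t ^ 2) f where
  zero : a 0 = 0
  one : a 1 = 1
  fourier : ∀ x y : ℝ, 0 < y → HasSum (fun n : ℕ =>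
    a n * ((2 * Real.sqrt y * besselK t (2 * π * n * y) * Real.cos (2 * π * n * x) : ℝ) : ℂ))
      (f (ofComplex ((x : ℂ) + y * I)))
  hecke : ∀ p : ℕ, p.Prime → ¬ p ∣ N → ∀ x y : ℝ, 0 < y →
    f (ofComplex (p * ((x : ℂ) + y * I))) +
      ∑ j ∈ Finset.range p, f (ofComplex (((x : ℂ) + y * I + j) / p)) =
    (Real.sqrt p : ℂ) * a p * f (ofComplex ((x : ℂ) + y * I))
  mult : ∀ p : ℕ, p.Prime → ¬ p ∣ N → ∀ n : ℕ, 0 < n →
    a (p * n) + (if p ∣ n then a (n / p) else 0) = a p * a n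

/-- Coefficients of `L(s, f ⊗ χ)` without its Euler factors at the primes dividing `N`. -/
def twistCoeff (N : ℕ) (a : ℕ → ℂ) {q : ℕ} (χ : DirichletCharacter ℂ q) (n : ℕ) : ℂ :=
  if n.Coprime N then a n * χ (n : ZMod q) else 0

/-- `L(1/2, f ⊗ χ) = 0`: the Dirichlet series `∑_{(n, N) = 1} a(n) χ(n) n^{-s}` converges absolutely
for `Re s > 1` and has an entire continuation which vanishes at `1/2`. (The Euler factors at the
primes dividing `N` have neither a zero nor a pole at `1/2`.) -/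
def CentralValueZero (N : ℕ) (a : ℕ → ℂ) {q : ℕ} (χ : DirichletCharacter ℂ q) : Prop :=
  ∃ L : ℂ → ℂ, Differentiable ℂ L ∧
    (∀ s : ℂ, 1 < s.re → LSeriesSummable (twistCoeff N a χ) s ∧ LSeries (twistCoeff N a χ) s = L s) ∧
    L (1 / 2) = 0

/-- The characters `η_E` of the quadratic fields `E` with `|Δ_E| < x`: all primitive quadratic
Dirichlet characters of conductor `q < x`, as pairs `(q, χ)`. -/
def quadChars (x : ℝ) : Set (Σ q : ℕ, DirichletCharacter ℂ q) :=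
  {c | c.1 ≠ 0 ∧ (c.1 : ℝ) < x ∧ c.2.IsPrimitive ∧ c.2 ^ 2 = 1 ∧ c.2 ≠ 1}

/-- `N(x)`, the number of quadratic fields `E` with `|Δ_E| < x` -/
def countAll (x : ℝ) : ℕ := (quadChars x).ncard

/-- `N_f(x)`, the number of quadratic fields `E` with `|Δ_E| < x` and `L(1/2, f ⊗ η_E) ≠ 0` -/
def countNonzero (N : ℕ) (a : ℕ → ℂ) (x : ℝ) : ℕ :=
  {c ∈ quadChars x | ¬ CentralValueZero N a c.2}.ncard

end

end Pool.Agent.TH625.GM
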