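import Pool.Agent.TH625.GM.All
import Pool.Agent.TH625.GM.Statement

/-! Proofs of the parts of the final statement. -/

set_option autoImplicit false

open Complex MeasureTheory
open UpperHalfPlane hiding I
open scoped Real MatrixGroups ModularForm

namespace Pool.Agent.TH625.GM

theorem a_eq_zero_or (n : ℕ) : a n = 0 ∨ chi5 (n : ZMod 5) = 1 := by
  have h := pArith1.chi n
  rcases chi5_cases (n : ZMod 5) with h0 | h0 | h0
  · left; rw [h0] at h; simpa using h.symm
  · right; exact h0
  · left
    rw [h0] at h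
    push_cast at h
    linear_combination (-1 / 2 : ℂ) * h

theorem a_of_not_coprime (n : ℕ) (h : ¬ n.Coprime 25) : a n = 0 := by
  have h5 : 5 ∣ n := by
    by_contra hn
    apply h
    have : Nat.Coprime 5 n := (Nat.Prime.coprime_iff_not_dvd (by norm_num)).2 hn
    exact (Nat.Coprime.pow_left 2 this).symm
  obtain ⟨m, rfl⟩ := h5
  exact pArith1.five m

theorem centralValueZero (q : ℕ) [NeZero q] (χ : DirichletCharacter ℂ q) (hp : χ.IsPrimitive)
    (h2 : χ ^ 2 = 1) : CentralValueZero 25 a χ := by
  obtain ⟨m, hm0, χ', hm, hp', h2', hchi⟩ := pSplit5 q χ hp h2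
  have h := lzero pThSummable pUnfold pTwist pArith1 pLSer m hm χ' hp' h2'
  have e : twistCoeff 25 a χ = fun n : ℕ => a n * χ' (n : ZMod m) := by
    ext n
    unfold twistCoeff
    split_ifs with hn
    · rcases a_eq_zero_or n with h0 | h0
      · rw [h0]; simp
      · rw [hchi n h0]
    · rw [a_of_not_coprime n hn]; simp
  unfold CentralValueZero
  rw [e]
  exact h

theorem form : IsHeckeMaassForm 25 tt fM a where
  ne_zero := fM_ne pUnfold pArith1 pBesselMellin pSmooth
  smooth := fM_smooth
  laplace := fM_laplace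
  invariant := fM_inv
  cuspidal := by
    intro σ z
    have := pCusps.zero σ z
    exact_mod_cast this
  decay := pCusps.bound
  zero := a_zero
  one := pArith1.one
  fourier := by
    intro x y hy
    have h := fM_hasSum' pUnfold x y hy
    convert h using 1
    ext n
    rw [trm, mul_comm]
    rfl
  hecke := by
    intro p hp hpN x y hy
    have hp5 : p ≠ 5 := by
      rintro rfl
      exact hpN (by norm_num)
    have h := hecke pUnfold pArith2 p hp hp5 x y hy
    rw [← h]
    have hpp : (p : ℂ) ≠ 0 := by exact_mod_cast hp.ne_zero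
    congr 1
    · congr 2
      push_cast
      ring
    · apply Finset.sum_congr rfl
      intro j _
      congr 2
      push_cast
      field_simp
      ring
  mult := by
    intro p hp hpN n hn
    have hp5 : p ≠ 5 := by
      rintro rfl
      exact hpN (by norm_num)
    exact pArith2 p n hp hp5 hn

theorem countNonzero_eq (x : ℝ) : countNonzero 25 a x = 0 := by
  have : {c ∈ quadChars x | ¬ CentralValueZero 25 a c.2} = ∅ := by
    ext c
    simp only [Set.mem_sep_iff, Set.mem_empty_iff_false, iff_false, not_and, not_not]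
    intro hc
    obtain ⟨hq, _, hp, h2, _⟩ := hc
    have : NeZero c.1 := ⟨hq⟩
    exact centralValueZero c.1 c.2 hp h2
  unfold countNonzero
  rw [this, Set.ncard_empty]


theorem quadChars_finite (x : ℝ) : (quadChars x).Finite := by
  have hsub : quadChars x ⊆ ⋃ q ∈ (Finset.Icc 1 ⌈x⌉₊ : Set ℕ),
      (fun χ : DirichletCharacter ℂ q => (⟨q, χ⟩ : Σ q : ℕ, DirichletCharacter ℂ q)) '' Set.univ := by
    rintro ⟨q, χ⟩ ⟨h0, h1, _⟩
    simp only [Set.mem_iUnion]
    refine ⟨q, ?_, χ, trivial, rfl⟩
    have h1' : (q : ℝ) < x := h1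
    have h2 : q < ⌈x⌉₊ := Nat.lt_ceil.2 h1'
    have h3 : q ≠ 0 := h0
    simp only [Finset.coe_Icc, Set.mem_Icc]
    omega
  refine Set.Finite.subset ?_ hsub
  refine Set.Finite.biUnion (Finset.finite_toSet _) ?_
  intro q hq
  have hq' : NeZero q := ⟨by simp at hq; omega⟩
  apply Set.Finite.image
  exact Set.finite_univ

theorem two_isUnit : IsUnit (2 : ZMod 3) := IsUnit.of_mul_eq_one 2 (by decide)

theorem two_not_sq : ¬ IsSquare (2 : ZMod 3) := by
  rintro ⟨y, hy⟩
  revert hy
  revert y
  decide

theorem quad3 : ∃ χ : DirichletCharacter ℂ 3, χ.IsPrimitive ∧ χ ^ 2 = 1 ∧ χ ≠ 1 := by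
  have : Fact (Nat.Prime 3) := ⟨by norm_num⟩
  let χ : DirichletCharacter ℂ 3 := (quadraticChar (ZMod 3)).ringHomComp (Int.castRingHom ℂ)
  have hne : χ ≠ 1 := by
    intro h
    have h2 : χ 2 = 1 := by rw [h]; exact MulChar.one_apply two_isUnit
    have h3 : χ 2 = -1 := by
      show ((quadraticChar (ZMod 3) 2 : ℤ) : ℂ) = -1
      have : quadraticChar (ZMod 3) 2 = -1 := by
        rw [quadraticChar_neg_one_iff_not_isSquare]
        exact two_not_sq
      rw [this]; simp
    rw [h3] at h2
    norm_num at h2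
  refine ⟨χ, ?_, ?_, hne⟩
  · have h1 : χ.conductor ∣ 3 := DirichletCharacter.conductor_dvd_level χ
    rcases (Nat.dvd_prime (by norm_num)).1 h1 with h | h
    · exfalso
      exact hne (DirichletCharacter.eq_one_iff_conductor_eq_one.2 h)
    · exact h
  · have := (quadraticChar_isQuadratic (ZMod 3)).comp (Int.castRingHom ℂ)
    exact this.sq_eq_one

theorem ncard_pos (x : ℝ) (hx : 3 < x) : 0 < (quadChars x).ncard := by
  obtain ⟨χ, h1, h2, h3⟩ := quad3
  rw [Set.ncard_pos (quadChars_finite x)]
  exact ⟨⟨3, χ⟩, by norm_num, by simpa using hx, h1, h2, h3⟩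

end Pool.Agent.TH625.GM
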