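import Pool.Agent.TH625.GM.Basic

/-! Fourier expansion of `fM`. -/

set_option autoImplicit false

open Complex MeasureTheory
open UpperHalfPlane hiding I
open scoped Real MatrixGroups ModularForm

namespace Pool.Agent.TH625.GM

theorem Th_zero_eq (F : ℤ × ℤ → ℂ) (s x y : ℝ) :
    Th (fun b => F b * cexp (((2 * π * x * nm b : ℝ) : ℂ) * I)) s 0 y = Th F s x y := by
  unfold Th
  congr 1
  ext b
  rw [mul_assoc, ← Complex.exp_add]
  congr 2
  push_cast
  ring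

theorem expo_sum (x : ℝ) : cexp ((x : ℂ) * I) + cexp (((-x : ℝ) : ℂ) * I) =
    ((2 * Real.cos x : ℝ) : ℂ) := by
  push_cast
  rw [Complex.cos]
  ring_nf

theorem finsum_four (n : ℕ) (x y : ℝ) :
    ∑ᶠ b ∈ Dn n, (((h5 b : ℂ) * cexp (((2 * π * x * nm b : ℝ) : ℂ) * I)) -
      ((h5 (mulPhi b) : ℂ) * cexp (((2 * π * x * nm (mulPhi b) : ℝ) : ℂ) * I))) * rho b *
        (KB tt (2 * π * n * y) : ℂ) =
    ((4 * Real.cos (2 * π * n * x) * KB tt (2 * π * n * y) : ℝ) : ℂ) * a n := by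
  have h : ∀ b ∈ Dn n, (((h5 b : ℂ) * cexp (((2 * π * x * nm b : ℝ) : ℂ) * I)) -
      ((h5 (mulPhi b) : ℂ) * cexp (((2 * π * x * nm (mulPhi b) : ℝ) : ℂ) * I))) * rho b *
        (KB tt (2 * π * n * y) : ℂ) =
      ((2 * Real.cos (2 * π * n * x) * KB tt (2 * π * n * y) : ℝ) : ℂ) * ((h5 b : ℂ) * rho b) := by
    intro b hb
    rw [h5_mulPhi, nm_mulPhi]
    have e1 : ((2 * π * x * (-nm b : ℤ) : ℝ) : ℂ) = ((-(2 * π * x * nm b) : ℝ) : ℂ) := by
      push_cast; ring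
    have e2 : Real.cos (2 * π * x * nm b) = Real.cos (2 * π * n * x) := by
      rcases mem_Dn_nm hb with h | h <;> rw [h]
      · congr 1; push_cast; ring
      · rw [← Real.cos_neg]; congr 1; push_cast; ring
    rw [e1]
    have e3 := expo_sum (2 * π * x * nm b)
    rw [e2] at e3
    push_cast at e3 ⊢
    linear_combination ((h5 b : ℂ) * rho b * (KB tt (2 * π * n * y) : ℂ)) * e3
  rw [finsum_mem_congr rfl h, ← mul_finsum_mem, a]
  push_cast
  ring

/-- Fourier expansion of the Maass form -/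
theorem fM_hasSum (hU : Unfold) (z : ℍ) :
    HasSum (fun n : ℕ => ((2 * Real.sqrt z.im * KB tt (2 * π * n * z.im) *
      Real.cos (2 * π * n * z.re) : ℝ) : ℂ) * a n) (fM z) := by
  have h := hU (fun b => (h5 b : ℂ) * cexp (((2 * π * z.re * nm b : ℝ) : ℂ) * I))
    (fun b => by
      rw [h5_mulPhi, h5_mulPhi, nm_mulPhi, nm_mulPhi]; simp)
    (by simp [h5_zero]) 0 1
    (fun b => by
      rw [norm_mul, Complex.norm_exp_ofReal_mul_I, mul_one]
      simpa using norm_h5_le b) z.im z.im_pos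
  have h2 := h.mul_left ((1 / 2) * (Real.sqrt z.im : ℂ))
  have e1 : (fun n : ℕ => ((2 * Real.sqrt z.im * KB tt (2 * π * n * z.im) *
      Real.cos (2 * π * n * z.re) : ℝ) : ℂ) * a n) = fun n : ℕ => 1 / 2 * (Real.sqrt z.im : ℂ) *
        ∑ᶠ b ∈ Dn n, (((h5 b : ℂ) * cexp (((2 * π * z.re * nm b : ℝ) : ℂ) * I)) -
      ((h5 (mulPhi b) : ℂ) * cexp (((2 * π * z.re * nm (mulPhi b) : ℝ) : ℂ) * I))) * rho b *
        (KB tt (2 * π * n * z.im) : ℂ) := by
    ext n
    rw [finsum_four]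
    push_cast
    ring
  have e2 : fM z = 1 / 2 * (Real.sqrt z.im : ℂ) * ∫ (s : ℝ) in 0..2 * Lg,
        Th (fun b => (h5 b : ℂ) * cexp (((2 * π * z.re * nm b : ℝ) : ℂ) * I)) s 0 z.im *
          cexp ((-(π * s / Lg) : ℝ) * I) := by
    unfold fM
    simp only [Th_zero_eq, E]
    have e3 : ∀ s : ℝ, (Real.sqrt z.im : ℂ) * Th (fun b => (h5 b : ℂ)) s z.re z.im *
        cexp ((-(π * s / Lg) : ℝ) * I) = (Real.sqrt z.im : ℂ) *
        (Th (fun b => (h5 b : ℂ)) s z.re z.im * cexp ((-(π * s / Lg) : ℝ) * I)) := fun s => by ring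
    simp only [e3]
    rw [intervalIntegral.integral_const_mul]
    ring
  rw [e1, e2]
  exact h2

theorem fM_eq (hU : Unfold) (z : ℍ) : fM z = Ser a tt z.re z.im := (fM_hasSum hU z).tsum_eq.symm

end Pool.Agent.TH625.GM
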