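import Pool.Agent.TH625.GM.Four

/-! Hecke operators on the Maass form. -/

set_option autoImplicit false

open Complex MeasureTheory
open UpperHalfPlane hiding I
open scoped Real MatrixGroups ModularForm

namespace Pool.Agent.TH625.GM

theorem cos_sum (p n : ℕ) (hp : p.Prime) (x : ℝ) :
    ∑ j ∈ Finset.range p, Real.cos (2 * π * n * ((x + j) / p)) =
      if p ∣ n then p * Real.cos (2 * π * n * (x / p)) else 0 := by
  have hp0 : (p : ℝ) ≠ 0 := by exact_mod_cast hp.ne_zero
  have hp0' : (p : ℂ) ≠ 0 := by exact_mod_cast hp.ne_zero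
  split_ifs with h
  · obtain ⟨m, rfl⟩ := h
    have : ∀ j ∈ Finset.range p, Real.cos (2 * π * (p * m : ℕ) * ((x + j) / p)) =
        Real.cos (2 * π * (p * m : ℕ) * (x / p)) := by
      intro j _
      have e : 2 * π * (p * m : ℕ) * ((x + j) / p) =
          2 * π * (p * m : ℕ) * (x / p) + (m * j : ℕ) * (2 * π) := by
        push_cast; field_simp
      rw [e, Real.cos_add_nat_mul_two_pi]
    rw [Finset.sum_congr rfl this, Finset.sum_const, Finset.card_range, nsmul_eq_mul]
  · have hz : IsPrimitiveRoot (cexp (2 * π * I / p)) p := Complex.isPrimitiveRoot_exp p hp.ne_zero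
    have hc : n.Coprime p := ((Nat.Prime.coprime_iff_not_dvd hp).2 h).symm
    have hz2 := hz.pow_of_coprime n hc
    have h0 := hz2.geom_sum_eq_zero hp.one_lt
    have h1 : ∑ j ∈ Finset.range p, cexp (((2 * π * n * ((x + j) / p) : ℝ) : ℂ) * I) = 0 := by
      have e : ∀ j : ℕ, cexp (((2 * π * n * ((x + j) / p) : ℝ) : ℂ) * I) =
          cexp (((2 * π * n * (x / p) : ℝ) : ℂ) * I) * (cexp (2 * π * I / p) ^ n) ^ j := by
        intro j
        rw [← pow_mul, ← Complex.exp_nat_mul, ← Complex.exp_add]
        congr 1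
        push_cast
        field_simp
      simp only [e]
      rw [← Finset.mul_sum, h0, mul_zero]
    have h2 := congrArg Complex.re h1
    rw [Complex.re_sum] at h2
    simpa only [Complex.exp_ofReal_mul_I_re, Complex.zero_re] using h2

/-- terms of the Fourier expansion -/
noncomputable def trm (n : ℕ) (x y : ℝ) : ℂ :=
  ((2 * Real.sqrt y * KB tt (2 * π * n * y) * Real.cos (2 * π * n * x) : ℝ) : ℂ) * a n

theorem fM_hasSum' (hU : Unfold) (x y : ℝ) (hy : 0 < y) :
    HasSum (fun n : ℕ => trm n x y) (fM (ofComplex ((x : ℂ) + y * I))) := by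
  have hz : 0 < ((x : ℂ) + y * I).im := by simpa using hy
  have h := fM_hasSum hU (ofComplex ((x : ℂ) + y * I))
  have h1 : (ofComplex ((x : ℂ) + y * I)).im = y := by
    rw [ofComplex_apply_of_im_pos hz]
    simp [UpperHalfPlane.im]
  have h2 : (ofComplex ((x : ℂ) + y * I)).re = x := by
    rw [ofComplex_apply_of_im_pos hz]
    simp [UpperHalfPlane.re]
  rw [h1, h2] at h
  exact h

theorem hecke (hU : Unfold) (hA : Arith2) (p : ℕ) (hp : p.Prime) (hp5 : p ≠ 5) (x y : ℝ)
    (hy : 0 < y) :
    fM (ofComplex (((p * x : ℝ) : ℂ) + (p * y : ℝ) * I)) +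
      ∑ j ∈ Finset.range p, fM (ofComplex ((((x + j) / p : ℝ) : ℂ) + (y / p : ℝ) * I)) =
    (Real.sqrt p : ℂ) * a p * fM (ofComplex ((x : ℂ) + y * I)) := by
  have hpp : (0 : ℝ) < p := by exact_mod_cast hp.pos
  have h0 := fM_hasSum' hU x y hy
  have h1 := fM_hasSum' hU (p * x) (p * y) (by positivity)
  have h2 : HasSum (fun n => ∑ j ∈ Finset.range p, trm n ((x + j) / p) (y / p))
      (∑ j ∈ Finset.range p, fM (ofComplex ((((x + j) / p : ℝ) : ℂ) + (y / p : ℝ) * I))) :=
    hasSum_sum fun j _ => fM_hasSum' hU ((x + j) / p) (y / p) (by positivity)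
  -- first operator
  have hinj : Function.Injective (fun n : ℕ => p * n) := fun u v h =>
    Nat.eq_of_mul_eq_mul_left hp.pos h
  have h1' : HasSum (fun n : ℕ => if p ∣ n then trm (n / p) (p * x) (p * y) else 0)
      (fM (ofComplex (((p * x : ℝ) : ℂ) + (p * y : ℝ) * I))) := by
    rw [← hinj.hasSum_iff]
    · convert h1 using 1
      ext n
      simp [hp.pos]
    · intro n hn
      rw [if_neg]
      rintro ⟨m, rfl⟩
      exact hn ⟨m, rfl⟩
  have h2' : HasSum (fun n : ℕ => ∑ j ∈ Finset.range p, trm (p * n) ((x + j) / p) (y / p))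
      (∑ j ∈ Finset.range p, fM (ofComplex ((((x + j) / p : ℝ) : ℂ) + (y / p : ℝ) * I))) := by
    have := (hinj.hasSum_iff (f := fun n => ∑ j ∈ Finset.range p, trm n ((x + j) / p) (y / p))
      (a := (∑ j ∈ Finset.range p, fM (ofComplex ((((x + j) / p : ℝ) : ℂ) + (y / p : ℝ) * I))))
      ?_).2 h2
    · exact this
    · intro n hn
      have hn' : ¬ p ∣ n := by
        rintro ⟨m, rfl⟩
        exact hn ⟨m, rfl⟩
      unfold trm
      rw [← Finset.sum_mul]
      have hc := cos_sum p n hp x
      rw [if_neg hn'] at hc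
      rw [← Complex.ofReal_sum, ← Finset.mul_sum, hc]
      simp
  have h3 := h1'.add h2'
  have h4 := h0.mul_left ((Real.sqrt p : ℂ) * a p)
  have e : (fun n : ℕ => (if p ∣ n then trm (n / p) (p * x) (p * y) else 0) +
      ∑ j ∈ Finset.range p, trm (p * n) ((x + j) / p) (y / p)) =
      fun n => (Real.sqrt p : ℂ) * a p * trm n x y := by
    ext n
    have hsum : ∑ j ∈ Finset.range p, trm (p * n) ((x + j) / p) (y / p) =
        (Real.sqrt p : ℂ) * (((2 * Real.sqrt y * KB tt (2 * π * n * y) *
          Real.cos (2 * π * n * x) : ℝ) : ℂ) * a (p * n)) := by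
      unfold trm
      rw [← Finset.sum_mul]
      have hc := cos_sum p (p * n) hp x
      rw [if_pos (dvd_mul_right p n)] at hc
      rw [← Complex.ofReal_sum, ← Finset.mul_sum, hc]
      have e1 : 2 * π * ((p * n : ℕ) : ℝ) * (y / p) = 2 * π * n * y := by
        push_cast; field_simp
      have e2 : 2 * π * ((p * n : ℕ) : ℝ) * (x / p) = 2 * π * n * x := by
        push_cast; field_simp
      have e3 : Real.sqrt (y / p) * p = Real.sqrt p * Real.sqrt y := by
        rw [Real.sqrt_div' _ hpp.le]
        have : Real.sqrt p * Real.sqrt p = p := Real.mul_self_sqrt hpp.le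
        have h0 : Real.sqrt p ≠ 0 := (Real.sqrt_pos.2 hpp).ne'
        field_simp
        rw [Real.sq_sqrt hpp.le]
      have eR : 2 * Real.sqrt (y / p) * KB tt (2 * π * (p * n : ℕ) * (y / p)) *
          (p * Real.cos (2 * π * (p * n : ℕ) * (x / p))) =
          Real.sqrt p * (2 * Real.sqrt y * KB tt (2 * π * n * y) * Real.cos (2 * π * n * x)) := by
        rw [e1, e2]
        linear_combination (2 * KB tt (2 * π * n * y) * Real.cos (2 * π * n * x)) * e3
      rw [eR, Complex.ofReal_mul, mul_assoc]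
    have hfst : (if p ∣ n then trm (n / p) (p * x) (p * y) else 0) =
        (Real.sqrt p : ℂ) * (((2 * Real.sqrt y * KB tt (2 * π * n * y) *
          Real.cos (2 * π * n * x) : ℝ) : ℂ) * (if p ∣ n then a (n / p) else 0)) := by
      split_ifs with h
      · obtain ⟨m, rfl⟩ := h
        rw [Nat.mul_div_cancel_left m hp.pos]
        unfold trm
        have e1 : 2 * π * (m : ℝ) * (p * y) = 2 * π * ((p * m : ℕ) : ℝ) * y := by
          push_cast; ring
        have e2 : 2 * π * (m : ℝ) * (p * x) = 2 * π * ((p * m : ℕ) : ℝ) * x := by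
          push_cast; ring
        have eR : 2 * Real.sqrt (p * y) * KB tt (2 * π * m * (p * y)) *
            Real.cos (2 * π * m * (p * x)) =
            Real.sqrt p * (2 * Real.sqrt y * KB tt (2 * π * (p * m : ℕ) * y) *
              Real.cos (2 * π * (p * m : ℕ) * x)) := by
          rw [e1, e2, Real.sqrt_mul hpp.le]
          ring
        rw [eR, Complex.ofReal_mul, mul_assoc]
      · simp
    rw [hsum, hfst]
    rcases Nat.eq_zero_or_pos n with hn | hn
    · subst hn
      simp [trm, a_zero]
    · have := hA p n hp hp5 hn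
      unfold trm
      linear_combination ((Real.sqrt p : ℂ) * (((2 * Real.sqrt y * KB tt (2 * π * n * y) *
          Real.cos (2 * π * n * x) : ℝ) : ℂ))) * this
  rw [e] at h3
  exact h3.unique h4

end Pool.Agent.TH625.GM
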