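import Pool.Agent.TH625.GM.Defs

/-! Statements (as `Prop`s) of the parts of the proof for MP_17f4cb_nt. -/

set_option autoImplicit false

open Complex MeasureTheory
open UpperHalfPlane hiding I
open scoped Real MatrixGroups ModularForm

namespace Pool.Agent.TH625.GM

noncomputable section

/-! ### ARITH -/

/-- elementary facts on the coefficients -/
structure Arith1 : Prop where
  fin : ∀ n : ℕ, (Dn n).Finite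
  card : ∃ C : ℝ, ∀ N : ℕ, ∑ n ∈ Finset.range (N + 1), ((Dn n).ncard : ℝ) ≤ C * N
  one : a 1 = 1
  five : ∀ n : ℕ, a (5 * n) = 0
  chi : ∀ n : ℕ, (chi5 (n : ZMod 5) : ℂ) * a n = a n
  sum : ∃ C : ℝ, ∀ N : ℕ, ∑ n ∈ Finset.range (N + 1), ‖a n‖ ≤ C * N

/-- Hecke relations -/
def Arith2 : Prop := ∀ p n : ℕ, p.Prime → p ≠ 5 → 0 < n →
  a (p * n) + (if p ∣ n then a (n / p) else 0) = a p * a n

/-! ### POISSON -/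

/-- Poisson summation for complex Gaussians on `ℤ²` -/
def Poisson2 : Prop := ∀ (A B C : ℂ) (μ κ r : ℝ), 0 < A.im → B.im ^ 2 < A.im * C.im → 0 < r →
  B ^ 2 - A * C = (r : ℂ) ^ 2 →
  HasSum (fun p : ℤ × ℤ => cexp (π * I * ((C * (μ + p.1) ^ 2 - 2 * B * (μ + p.1) * (κ + p.2) +
      A * (κ + p.2) ^ 2) / r ^ 2)))
    (r * ∑' p : ℤ × ℤ, cexp (π * I * (A * p.1 ^ 2 + 2 * B * p.1 * p.2 + C * p.2 ^ 2) +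
      2 * π * I * (μ * p.1 + κ * p.2)))

/-- absolute convergence of the theta series -/
def ThSummable : Prop := ∀ (F : ℤ × ℤ → ℂ) (k : ℕ) (C : ℝ),
  (∀ b, ‖F b‖ ≤ C * (1 + |(b.1 : ℝ)| + |(b.2 : ℝ)|) ^ k) → ∀ s x y : ℝ, 0 < y →
  Summable (fun b : ℤ × ℤ =>
    F b * cexp (((-(π * y * maj s b) : ℝ) : ℂ) + ((2 * π * x * nm b : ℝ) : ℂ) * I))

/-! ### Transformation laws -/

def LawT : Prop := ∀ (k : ZMod 5) (s : ℝ) (z : ℍ),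
  thk k s (ModularGroup.T • z) = ZMod.stdAddChar (-(k ^ 2)) * thk k s z

def LawS : Prop := ∀ (k : ZMod 5) (s : ℝ) (z : ℍ),
  thk k s (ModularGroup.S • z) =
    (1 / Real.sqrt 5 : ℝ) * ∑ l : ZMod 5, ZMod.stdAddChar (2 * k * l) * thk l s z

def LawOne : Prop := ∀ (s : ℝ) (z : ℍ), E (fun _ => 1) s z = thk 0 s z

structure LawSL2 : Prop where
  dvd : ∀ (s : ℝ) (γ : SL(2, ℤ)) (z : ℍ), ((γ 1 0 : ℤ) : ZMod 5) = 0 →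
    thk 0 s (γ • z) = (chi5 ((γ 1 1 : ℤ) : ZMod 5) : ℂ) * thk 0 s z
  ndvd : ∀ (s : ℝ) (γ : SL(2, ℤ)) (z : ℍ), ((γ 1 0 : ℤ) : ZMod 5) ≠ 0 →
    thk 0 s (γ • z) = (chi5 ((γ 1 0 : ℤ) : ZMod 5) : ℂ) * (1 / Real.sqrt 5 : ℝ) *
      ∑ k : ZMod 5, ZMod.stdAddChar (-((γ 1 1 : ℤ) : ZMod 5) * ((γ 1 0 : ℤ) : ZMod 5)⁻¹ * k ^ 2) *
        thk k s z

/-- the twist of `E 1` by the quartic character gives `E h5` -/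
structure LawTw5 : Prop where
  eq : ∀ (s : ℝ) (z : ℍ),
    ∑ j : ZMod 5, (starRingEnd ℂ) (om j) * E (fun _ => 1) s (((j.val : ℝ) / 5) +ᵥ z) =
      (∑ j : ZMod 5, (starRingEnd ℂ) (om j) * ZMod.stdAddChar j) * E (fun b => (h5 b : ℂ)) s z
  ne : (∑ j : ZMod 5, (starRingEnd ℂ) (om j) * ZMod.stdAddChar j) ≠ 0

def LawAut : Prop := ∀ (s : ℝ) (γ : SL(2, ℤ)), γ ∈ CongruenceSubgroup.Gamma0 25 → ∀ z : ℍ,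
  E (fun b => (h5 b : ℂ)) s (γ • z) = E (fun b => (h5 b : ℂ)) s z

/-- behaviour at the cusps -/
structure Cusps : Prop where
  bound : ∀ σ : SL(2, ℤ), ∃ C c : ℝ, 0 < c ∧ ∀ z : ℍ, 1 ≤ z.im →
    ‖fM (σ • z)‖ ≤ C * Real.exp (-(c * z.im))
  zero : ∀ (σ : SL(2, ℤ)) (z : ℍ), ∫ x in (0 : ℝ)..25, fM (σ • ((x : ℝ) +ᵥ z)) = 0

def Twist : Prop := ∀ (m : ℕ) [NeZero m], m.Coprime 5 → ∀ χ : DirichletCharacter ℂ m,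
  χ.IsPrimitive → χ ^ 2 = 1 → ∀ s x y : ℝ, 0 < y →
  (Real.sqrt (y / (25 * m ^ 2 * (x ^ 2 + y ^ 2))) : ℂ) *
      Th (fun b => (h5 b : ℂ) * χ (nm b : ZMod m)) s (-x / (25 * m ^ 2 * (x ^ 2 + y ^ 2)))
        (y / (25 * m ^ 2 * (x ^ 2 + y ^ 2))) =
    -χ (-1) * ((Real.sqrt y : ℂ) * Th (fun b => (h5 b : ℂ) * χ (nm b : ZMod m)) s x y)

/-! ### UNFOLD -/

def Unfold : Prop := ∀ (F : ℤ × ℤ → ℂ), (∀ b, F (mulPhi (mulPhi b)) = F b) → F 0 = 0 →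
  ∀ (k : ℕ) (C : ℝ), (∀ b, ‖F b‖ ≤ C * (1 + |(b.1 : ℝ)| + |(b.2 : ℝ)|) ^ k) →
  ∀ y : ℝ, 0 < y →
  HasSum (fun n : ℕ => ∑ᶠ b ∈ Dn n, (F b - F (mulPhi b)) * rho b * (KB tt (2 * π * n * y) : ℂ))
    (∫ s in (0 : ℝ)..(2 * Lg), Th F s 0 y * cexp ((-(π * s / Lg) : ℝ) * I))

/-! ### BESSEL -/

def KBj (j : ℕ) (t x : ℝ) : ℝ :=
  ∫ w in Set.Ioi (0 : ℝ), (-Real.cosh w) ^ j * Real.exp (-(x * Real.cosh w)) * Real.cos (t * w)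

structure Bessel : Prop where
  zero : ∀ t x : ℝ, KBj 0 t x = KB t x
  deriv : ∀ (j : ℕ) (t x : ℝ), 0 < x → HasDerivAt (KBj j t) (KBj (j + 1) t x) x
  bound : ∀ (j : ℕ) (x₀ : ℝ), 0 < x₀ → ∃ C : ℝ, ∀ t x : ℝ, x₀ ≤ x →
    |KBj j t x| ≤ C * Real.exp (-x)
  ode : ∀ t x : ℝ, 0 < x →
    x ^ 2 * KBj 2 t x + x * KBj 1 t x = (x ^ 2 - t ^ 2) * KBj 0 t x

def BesselMellin : Prop := ∀ (t : ℝ) (w : ℂ), 0 < w.re →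
  MellinConvergent (fun x => (KB t x : ℂ)) w ∧
  mellin (fun x => (KB t x : ℂ)) w =
    2 ^ (w - 2) * Complex.Gamma ((w + t * I) / 2) * Complex.Gamma ((w - t * I) / 2)

/-! ### SMOOTH -/

/-- a Fourier-Bessel series -/
def Ser (c : ℕ → ℂ) (t : ℝ) (x y : ℝ) : ℂ :=
  ∑' n : ℕ, (2 * Real.sqrt y * KB t (2 * π * n * y) * Real.cos (2 * π * n * x) : ℝ) * c n

structure Smooth : Prop where
  summable : ∀ (c : ℕ → ℂ), c 0 = 0 → ∀ C : ℝ, (∀ n, ‖c n‖ ≤ C * n) → ∀ t x y : ℝ, 0 < y →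
    Summable fun n : ℕ =>
      ((2 * Real.sqrt y * KB t (2 * π * n * y) * Real.cos (2 * π * n * x) : ℝ) : ℂ) * c n
  contDiff : ∀ (c : ℕ → ℂ), c 0 = 0 → ∀ C : ℝ, (∀ n, ‖c n‖ ≤ C * n) → ∀ t : ℝ,
    ContDiffOn ℝ (⊤ : ℕ∞) (fun p : ℝ × ℝ => Ser c t p.1 p.2) {p | 0 < p.2}
  eigen : ∀ (c : ℕ → ℂ), c 0 = 0 → ∀ C : ℝ, (∀ n, ‖c n‖ ≤ C * n) → ∀ t x y : ℝ, 0 < y →
    y ^ 2 * (iteratedDeriv 2 (fun u : ℝ => Ser c t u y) x +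
      iteratedDeriv 2 (fun v : ℝ => Ser c t x v) y) =
      -(1 / 4 + t ^ 2 : ℝ) * Ser c t x y

/-! ### LSER -/

def LSer : Prop := ∀ (c : ℕ → ℂ), c 0 = 0 → ∀ C : ℝ,
  (∀ N : ℕ, ∑ n ∈ Finset.range (N + 1), ‖c n‖ ≤ C * N) → ∀ (t : ℝ) (δ : ℕ), (δ = 0 ∨ δ = 1) →
  ∀ q : ℝ, 0 < q →
  (∀ x : ℝ, 0 < x →
      ∑' n : ℕ, c n * (n : ℂ) ^ δ * (KB t (2 * π * n * (1 / (q ^ 2 * x))) : ℂ) =
        -((q * x) ^ (2 * δ + 1) : ℝ) * ∑' n : ℕ, c n * (n : ℂ) ^ δ * (KB t (2 * π * n * x) : ℂ)) →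
    ∃ L : ℂ → ℂ, Differentiable ℂ L ∧ (∀ s : ℂ, 1 < s.re → LSeriesSummable c s ∧ LSeries c s = L s) ∧
      L (1 / 2) = 0

/-! ### CHAR -/

def Split5 : Prop := ∀ (q : ℕ) [NeZero q] (χ : DirichletCharacter ℂ q), χ.IsPrimitive →
  χ ^ 2 = 1 →
    ∃ (m : ℕ) (_ : NeZero m) (χ' : DirichletCharacter ℂ m), m.Coprime 5 ∧ χ'.IsPrimitive ∧
      χ' ^ 2 = 1 ∧ ∀ n : ℕ, chi5 (n : ZMod 5) = 1 → χ (n : ZMod q) = χ' (n : ZMod m)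

end

end Pool.Agent.TH625.GM
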