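import Pool.Agent.TH625.GM.Basic

/-! Differentiability of the theta series in `(x, y)`. -/

set_option autoImplicit false

open Complex MeasureTheory
open UpperHalfPlane hiding I
open scoped Real MatrixGroups ModularForm

namespace Pool.Agent.TH625.GM

/-- term of the theta series -/
noncomputable def tm (F : ℤ × ℤ → ℂ) (s : ℝ) (b : ℤ × ℤ) (p : ℝ × ℝ) : ℂ :=
  F b * cexp (((-(π * p.2 * maj s b) : ℝ) : ℂ) + ((2 * π * p.1 * nm b : ℝ) : ℂ) * I)

/-- the derivative of the exponent -/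
noncomputable def dl (s : ℝ) (b : ℤ × ℤ) : ℝ × ℝ →L[ℝ] ℂ :=
  (-(π * maj s b)) • (Complex.ofRealCLM.comp (ContinuousLinearMap.snd ℝ ℝ ℝ)) +
    ((2 * π * nm b : ℝ) : ℂ) • I • (Complex.ofRealCLM.comp (ContinuousLinearMap.fst ℝ ℝ ℝ))

theorem dl_apply (s : ℝ) (b : ℤ × ℤ) (v : ℝ × ℝ) :
    dl s b v = ((-(π * maj s b) * v.2 : ℝ) : ℂ) + ((2 * π * nm b * v.1 : ℝ) : ℂ) * I := by
  simp [dl]
  ring

theorem hasFDerivAt_tm (F : ℤ × ℤ → ℂ) (s : ℝ) (b : ℤ × ℤ) (p : ℝ × ℝ) :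
    HasFDerivAt (tm F s b) (tm F s b p • dl s b) p := by
  have h1 : HasFDerivAt (fun p : ℝ × ℝ => ((-(π * p.2 * maj s b) : ℝ) : ℂ) +
      ((2 * π * p.1 * nm b : ℝ) : ℂ) * I) (dl s b) p := by
    have e : (fun p : ℝ × ℝ => ((-(π * p.2 * maj s b) : ℝ) : ℂ) +
      ((2 * π * p.1 * nm b : ℝ) : ℂ) * I) = fun p => dl s b p := by
      ext p
      rw [dl_apply]
      push_cast
      ring
    rw [e]
    exact (dl s b).hasFDerivAt
  have h2 := (h1.cexp).const_mul (F b)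
  convert! h2 using 1
  rw [tm, smul_smul]

theorem maj_nonneg (s : ℝ) (b : ℤ × ℤ) : 0 ≤ maj s b := by
  unfold maj; positivity

theorem gr_le : Real.goldenRatio ≤ 2 := by
  have := Real.goldenRatio_lt_two; linarith

theorem abs_e1_le (b : ℤ × ℤ) : |e1 b| ≤ 2 * (1 + |(b.1 : ℝ)| + |(b.2 : ℝ)|) := by
  unfold e1
  have h0 : 0 < Real.goldenRatio := Real.goldenRatio_pos
  calc |(b.1 : ℝ) + b.2 * Real.goldenRatio| ≤ |(b.1 : ℝ)| + |(b.2 : ℝ) * Real.goldenRatio| :=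
        abs_add_le _ _
    _ = |(b.1 : ℝ)| + |(b.2 : ℝ)| * Real.goldenRatio := by rw [abs_mul, abs_of_pos h0]
    _ ≤ _ := by nlinarith [abs_nonneg (b.1 : ℝ), abs_nonneg (b.2 : ℝ), gr_le]

theorem abs_e2_le (b : ℤ × ℤ) : |e2 b| ≤ 2 * (1 + |(b.1 : ℝ)| + |(b.2 : ℝ)|) := by
  unfold e2
  have h0 : |Real.goldenConj| ≤ 2 := by
    have h1 := Real.goldenConj_neg
    have h2 := Real.neg_one_lt_goldenConj
    rw [abs_of_neg h1]; linarith
  calc |(b.1 : ℝ) + b.2 * Real.goldenConj| ≤ |(b.1 : ℝ)| + |(b.2 : ℝ) * Real.goldenConj| :=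
        abs_add_le _ _
    _ = |(b.1 : ℝ)| + |(b.2 : ℝ)| * |Real.goldenConj| := by rw [abs_mul]
    _ ≤ _ := by nlinarith [abs_nonneg (b.1 : ℝ), abs_nonneg (b.2 : ℝ)]

theorem e1_mul_e2 (b : ℤ × ℤ) : e1 b * e2 b = nm b := by
  unfold e1 e2 nm
  have h1 := Real.goldenRatio_add_goldenConj
  have h2 := Real.goldenRatio_mul_goldenConj
  push_cast
  linear_combination ((b.1 : ℝ) * b.2) * h1 + (b.2 : ℝ) ^ 2 * h2

/-- size of the derivative weights -/
theorem weight_le (s : ℝ) : ∃ C : ℝ, 0 ≤ C ∧ ∀ b : ℤ × ℤ,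
    π * maj s b + 2 * π * |(nm b : ℝ)| ≤ C * (1 + |(b.1 : ℝ)| + |(b.2 : ℝ)|) ^ 2 := by
  refine ⟨π * (4 * Real.exp (2 * s) + 4 * Real.exp (-(2 * s))) + 2 * π * 4, by positivity, ?_⟩
  intro b
  set N := 1 + |(b.1 : ℝ)| + |(b.2 : ℝ)| with hN
  have hN0 : 0 ≤ N := by positivity
  have h1 := abs_e1_le b
  have h2 := abs_e2_le b
  rw [← hN] at h1 h2
  have h3 : e1 b ^ 2 ≤ 4 * N ^ 2 := by
    rw [← sq_abs]; nlinarith [abs_nonneg (e1 b)]
  have h4 : e2 b ^ 2 ≤ 4 * N ^ 2 := by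
    rw [← sq_abs]; nlinarith [abs_nonneg (e2 b)]
  have h5 : |(nm b : ℝ)| ≤ 4 * N ^ 2 := by
    rw [← e1_mul_e2, abs_mul]; nlinarith [abs_nonneg (e1 b), abs_nonneg (e2 b)]
  have h6 : maj s b ≤ (4 * Real.exp (2 * s) + 4 * Real.exp (-(2 * s))) * N ^ 2 := by
    unfold maj
    nlinarith [Real.exp_pos (2 * s), Real.exp_pos (-(2 * s))]
  have hpi := Real.pi_pos
  calc π * maj s b + 2 * π * |(nm b : ℝ)| ≤
      π * ((4 * Real.exp (2 * s) + 4 * Real.exp (-(2 * s))) * N ^ 2) + 2 * π * (4 * N ^ 2) := by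
        gcongr
    _ = _ := by ring

theorem norm_tm (F : ℤ × ℤ → ℂ) (s : ℝ) (b : ℤ × ℤ) (p : ℝ × ℝ) :
    ‖tm F s b p‖ = ‖F b‖ * Real.exp (-(π * p.2 * maj s b)) := by
  rw [tm, norm_mul, Complex.norm_exp]
  congr 2
  simp

theorem norm_dl_le (s : ℝ) (b : ℤ × ℤ) : ‖dl s b‖ ≤ π * maj s b + 2 * π * |(nm b : ℝ)| := by
  apply ContinuousLinearMap.opNorm_le_bound _ (by have := maj_nonneg s b; positivity)
  intro v
  rw [dl_apply]
  have hv1 : |v.1| ≤ ‖v‖ := norm_fst_le v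
  have hv2 : |v.2| ≤ ‖v‖ := norm_snd_le v
  have hm := maj_nonneg s b
  calc ‖((-(π * maj s b) * v.2 : ℝ) : ℂ) + ((2 * π * nm b * v.1 : ℝ) : ℂ) * I‖
      ≤ ‖((-(π * maj s b) * v.2 : ℝ) : ℂ)‖ + ‖((2 * π * nm b * v.1 : ℝ) : ℂ) * I‖ := norm_add_le _ _
    _ = π * maj s b * |v.2| + 2 * π * |(nm b : ℝ)| * |v.1| := by
        rw [norm_mul, Complex.norm_I, mul_one, Complex.norm_real, Complex.norm_real,
          Real.norm_eq_abs, Real.norm_eq_abs, abs_mul, abs_mul, abs_neg, abs_mul, abs_mul, abs_mul,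
          abs_of_pos Real.pi_pos, abs_of_nonneg hm, abs_two]
    _ ≤ π * maj s b * ‖v‖ + 2 * π * |(nm b : ℝ)| * ‖v‖ := by gcongr
    _ = _ := by ring

/-- summable majorant of the derivatives -/
theorem summable_weight (hs : ThSummable) (F : ℤ × ℤ → ℂ) (k : ℕ) (C : ℝ)
    (hC : ∀ b, ‖F b‖ ≤ C * (1 + |(b.1 : ℝ)| + |(b.2 : ℝ)|) ^ k) (s y : ℝ) (hy : 0 < y) :
    Summable (fun b : ℤ × ℤ => ‖F b‖ * Real.exp (-(π * y * maj s b)) *
      (π * maj s b + 2 * π * |(nm b : ℝ)|)) := by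
  obtain ⟨C', hC'0, hC'⟩ := weight_le s
  have h := hs (fun b => F b * ((π * maj s b + 2 * π * |(nm b : ℝ)| : ℝ) : ℂ)) (k + 2) (C * C')
    (fun b => by
      have hm := maj_nonneg s b
      rw [norm_mul, Complex.norm_real, Real.norm_eq_abs,
        abs_of_nonneg (by positivity : 0 ≤ π * maj s b + 2 * π * |(nm b : ℝ)|)]
      calc _ ≤ (C * (1 + |(b.1 : ℝ)| + |(b.2 : ℝ)|) ^ k) *
          (C' * (1 + |(b.1 : ℝ)| + |(b.2 : ℝ)|) ^ 2) := by
            gcongr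
            · exact (norm_nonneg _).trans (hC b)
            · exact hC b
            · exact hC' b
        _ = _ := by ring) s 0 y hy
  have h2 := h.norm
  refine h2.congr ?_
  intro b
  have hm := maj_nonneg s b
  rw [norm_mul, norm_mul, Complex.norm_real, Real.norm_eq_abs,
        abs_of_nonneg (by positivity : 0 ≤ π * maj s b + 2 * π * |(nm b : ℝ)|), Complex.norm_exp]
  simp
  ring

theorem hasFDerivAt_Th (hs : ThSummable) (F : ℤ × ℤ → ℂ) (k : ℕ) (C : ℝ)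
    (hC : ∀ b, ‖F b‖ ≤ C * (1 + |(b.1 : ℝ)| + |(b.2 : ℝ)|) ^ k) (s : ℝ) (p : ℝ × ℝ) (hp : 0 < p.2) :
    HasFDerivAt (fun p : ℝ × ℝ => Th F s p.1 p.2) (∑' b, tm F s b p • dl s b) p := by
  have hS : IsOpen {q : ℝ × ℝ | p.2 / 2 < q.2} := isOpen_lt continuous_const continuous_snd
  have hS2 : IsPreconnected {q : ℝ × ℝ | p.2 / 2 < q.2} := by
    apply Convex.isPreconnected
    exact convex_halfSpace_gt (LinearMap.snd ℝ ℝ ℝ).isLinear _
  have hmem : p ∈ {q : ℝ × ℝ | p.2 / 2 < q.2} := by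
    simp only [Set.mem_ofPred_eq]; linarith
  have key := hasFDerivAt_tsum_of_isPreconnected (𝕜 := ℝ) (f := fun b q => tm F s b q)
    (f' := fun b q => tm F s b q • dl s b)
    (summable_weight hs F k C hC s (p.2 / 2) (by positivity)) hS hS2
    (fun b q _ => hasFDerivAt_tm F s b q)
    (fun b q hq => by
      rw [norm_smul, norm_tm]
      have hm := maj_nonneg s b
      have hq' : p.2 / 2 < q.2 := hq
      gcongr
      exact norm_dl_le s b)
    hmem (by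
      have := hs F k C hC s p.1 p.2 hp
      exact this) hmem
  exact key

/-- derivative along a path -/
theorem hasDerivAt_Th_path (hs : ThSummable) (F : ℤ × ℤ → ℂ) (k : ℕ) (C : ℝ)
    (hC : ∀ b, ‖F b‖ ≤ C * (1 + |(b.1 : ℝ)| + |(b.2 : ℝ)|) ^ k) (s : ℝ) (X Y : ℝ → ℝ) (X' u : ℝ)
    (hX : HasDerivAt X X' u) (hY : HasDerivAt Y 0 u) (hp : 0 < Y u) :
    HasDerivAt (fun v => Th F s (X v) (Y v))
      (2 * π * X' * I * Th (fun b => (nm b : ℂ) * F b) s (X u) (Y u)) u := by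
  have h1 := hasFDerivAt_Th hs F k C hC s (X u, Y u) hp
  have h2 : HasDerivAt (fun v => (X v, Y v)) (X', 0) u := hX.prodMk hY
  have h3 := h1.comp_hasDerivAt u h2
  have hsum : Summable (fun b => tm F s b (X u, Y u) • dl s b) := by
    apply Summable.of_norm_bounded (summable_weight hs F k C hC s (Y u) hp)
    intro b
    rw [norm_smul, norm_tm]
    have hm := maj_nonneg s b
    gcongr
    exact norm_dl_le s b
  have h4 : (∑' b, tm F s b (X u, Y u) • dl s b) (X', 0) =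
      2 * π * X' * I * Th (fun b => (nm b : ℂ) * F b) s (X u) (Y u) := by
    have h5 := (ContinuousLinearMap.apply ℝ ℂ ((X', 0) : ℝ × ℝ)).map_tsum hsum
    simp only [ContinuousLinearMap.apply_apply] at h5
    rw [h5, Th, ← tsum_mul_left]
    congr 1
    ext b
    rw [ContinuousLinearMap.smul_apply, dl_apply, tm, smul_eq_mul]
    push_cast
    ring
  rw [← h4]
  exact h3

end Pool.Agent.TH625.GM
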